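import Pool.Agent.H329R3.PM.Stmts

open MeasureTheory Set Filter Topology
open scoped RealInnerProductSpace

namespace Pool.Agent.H410R3.PME

open Pool.Agent.H329R3.PM

theorem Ks_smul (c : ℝ) (hc : 0 < c) (z : E 3) :
    Ks 3 (3 / 4) (c • z) = c ^ (-(3 / 2) : ℝ) * Ks 3 (3 / 4) z := by
  unfold Ks
  rw [norm_smul, Real.norm_of_nonneg hc.le, Real.mul_rpow hc.le (norm_nonneg z)]
  have h : (-(((3 : ℕ) : ℝ) - 2 * (3 / 4)) : ℝ) = -(3 / 2) := by norm_num
  rw [h]
  ring

theorem taskScale : TaskScale := by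
  intro F G hP t ht
  have hτ : (0 : ℝ) < 1 + t := by linarith
  set c : ℝ := (1 + t) ^ (-(1 / 2) : ℝ) with hcdef
  have hc : 0 < c := Real.rpow_pos_of_pos hτ _
  have hc0 : c ≠ 0 := hc.ne'
  set K : ℝ := (c⁻¹) ^ (-(3 / 2) : ℝ) * (1 + t) ^ (-(3 / 2) : ℝ) with hK
  have hfun : ∀ x : E 3, (fun y : E 3 => Ks 3 (3 / 4) (x - y) * selfSim F y t) =
      fun y => K * (fun z : E 3 => Ks 3 (3 / 4) (c • x - z) * F z) (c • y) := by
    intro x
    funext y
    have h1 : x - y = c⁻¹ • (c • x - c • y) := by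
      rw [← smul_sub, smul_smul, inv_mul_cancel₀ hc0, one_smul]
    have h2 : Ks 3 (3 / 4) (x - y) = (c⁻¹) ^ (-(3 / 2) : ℝ) * Ks 3 (3 / 4) (c • x - c • y) := by
      rw [h1, Ks_smul _ (inv_pos.2 hc)]
    simp only [selfSim]
    rw [h2, hK]
    ring
  have hpot : ∀ x : E 3, pot 3 (3 / 4) (fun y => selfSim F y t) x =
      (K * |(c ^ 3)⁻¹|) * pot 3 (3 / 4) F (c • x) := by
    intro x
    unfold pot
    rw [hfun x, integral_const_mul]
    rw [Measure.integral_comp_smul volume (fun z : E 3 => Ks 3 (3 / 4) (c • x - z) * F z) c]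
    simp only [finrank_euclideanSpace, Fintype.card_fin, smul_eq_mul]
    ring
  refine ⟨fun x => ?_, fun x => ?_⟩
  · rw [hfun x]
    refine Integrable.const_mul ?_ K
    exact (integrable_comp_smul_iff volume _ hc0).2 (hP.int (c • x))
  · have hKc : (K * |(c ^ 3)⁻¹|) * c = (1 + t) ^ (-(5 / 4) : ℝ) := by
      have e1 : (c⁻¹) ^ (-(3 / 2) : ℝ) = (1 + t) ^ (-(3 / 4) : ℝ) := by
        rw [hcdef, ← Real.rpow_neg hτ.le, ← Real.rpow_mul hτ.le]
        norm_num
      have e2 : |(c ^ 3)⁻¹| = (1 + t) ^ ((3 / 2) : ℝ) := by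
        rw [abs_of_pos (by positivity), hcdef, ← Real.rpow_natCast, ← Real.rpow_mul hτ.le,
          ← Real.rpow_neg hτ.le]
        norm_num
      rw [hK, e1, e2, hcdef, ← Real.rpow_add hτ, ← Real.rpow_add hτ, ← Real.rpow_add hτ]
      norm_num
    have hg := (hP.grad (c • x)).hasFDerivAt
    have hlin : HasFDerivAt (fun y : E 3 => c • y) (c • ContinuousLinearMap.id ℝ (E 3)) x :=
      (hasFDerivAt_id x).const_smul c
    have hcomp := (hg.comp x hlin).const_mul (K * |(c ^ 3)⁻¹|)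
    have hfe : pot 3 (3 / 4) (fun y => selfSim F y t) =
        fun x => (K * |(c ^ 3)⁻¹|) * pot 3 (3 / 4) F (c • x) := funext hpot
    rw [hasGradientAt_iff_hasFDerivAt, hfe]
    refine hcomp.congr_fderiv ?_
    ext v
    simp only [smul_apply, ContinuousLinearMap.comp_apply,
      ContinuousLinearMap.id_apply, InnerProductSpace.toDual_apply_apply, smul_eq_mul,
      inner_smul_right, inner_smul_left, RCLike.conj_to_real]
    rw [← hKc]
    ring

end Pool.Agent.H410R3.PME
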